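import Pool.Agent.Y333.RP.Gap

/-!
# Powers of edge ideals of gap-free graphs under (im, reg)-invariant extensions

Definitions used from the files `Pool.Agent.H677R3.RegKoszul` and `RegDeg`:
* `edgeIdeal k G` is the ideal of `k[x_0,…,x_{n-1}]` spanned by the `x_i x_j`, `i` adjacent to `j`;
* `TorNe J i e`: the Koszul homology `H_i(x_1,…,x_n; J) = Tor_i(J, k)` is nonzero in internal
  degree `i + e`, i.e. `β_{i, i+e}(J) ≠ 0`;
* `IsReg J r`: `r` is the greatest `e` such that `TorNe J i e` for some `i`, i.e. `reg J = r`.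
-/

set_option autoImplicit false

namespace Pool.Agent.Results.MP_3df448_al.InvariantExtension

open Pool.Agent.H677R3.EdgeReg

universe u

/-- `M` is an induced matching of `G`: a set of pairwise disjoint edges such that no edge of `G`
meets two of them. -/
def IsInducedMatching {V : Type*} (G : SimpleGraph V) (M : Finset (Sym2 V)) : Prop :=
  (∀ e ∈ M, e ∈ G.edgeSet) ∧
  (∀ e ∈ M, ∀ f ∈ M, e ≠ f → ∀ a ∈ e, ∀ b ∈ f, a ≠ b) ∧
  (∀ e ∈ M, ∀ f ∈ M, e ≠ f → ∀ g ∈ G.edgeSet, ¬ ((∃ a ∈ e, a ∈ g) ∧ (∃ b ∈ f, b ∈ g)))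

/-- `im(G) = m`: the largest size of an induced matching of `G` is `m`. -/
def IsIm {V : Type*} (G : SimpleGraph V) (m : ℕ) : Prop :=
  IsGreatest {c | ∃ M : Finset (Sym2 V), IsInducedMatching G M ∧ M.card = c} m

/-- `G` has no isolated vertices. -/
def NoIsolated {V : Type*} (G : SimpleGraph V) : Prop := ∀ v, ∃ w, G.Adj v w

/-- `G'` (with vertices `x_0, …, x_n`) is an `(im, reg)`-invariant extension over the field `k` of
the graph `G` (with vertices `x_0, …, x_{n-1}`): the graph induced by `G'` on the first `n`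
vertices is `G`, `im(G') = im(G)` and `reg I(G') = reg I(G)`. -/
def IsInvariantExtension (k : Type u) [Field k] {n : ℕ} (G : SimpleGraph (Fin n))
    (G' : SimpleGraph (Fin (n + 1))) : Prop :=
  G'.comap Fin.castSucc = G ∧ (∀ m, IsIm G m ↔ IsIm G' m) ∧
  (∀ r, IsReg (edgeIdeal k G) r ↔ IsReg (edgeIdeal k G') r)

lemma gapFree_of_isIm {n : ℕ} {G : SimpleGraph (Fin n)} (h : IsIm G 1) :
    Pool.Agent.Y333.RP.GapFree G := by
  classical
  intro a b c d hab hcd hac had hbc hbd
  by_contra hcon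
  push Not at hcon
  obtain ⟨h1, h2, h3, h4⟩ := hcon
  have hne : s(a, b) ≠ s(c, d) := by
    intro h
    rw [Sym2.eq_iff] at h
    rcases h with ⟨h, -⟩ | ⟨h, -⟩
    · exact hac h
    · exact had h
  have hnadj : ∀ x ∈ s(a, b), ∀ y ∈ s(c, d), ¬ G.Adj x y := by
    intro x hx y hy
    rcases Sym2.mem_iff.mp hx with rfl | rfl <;> rcases Sym2.mem_iff.mp hy with rfl | rfl <;>
      assumption
  have hneq : ∀ x ∈ s(a, b), ∀ y ∈ s(c, d), x ≠ y := by
    intro x hx y hy
    rcases Sym2.mem_iff.mp hx with rfl | rfl <;> rcases Sym2.mem_iff.mp hy with rfl | rfl <;>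
      assumption
  have hno : ∀ g ∈ G.edgeSet, ∀ x ∈ s(a, b), ∀ y ∈ s(c, d), x ∈ g → y ∈ g → False := by
    intro g hg x hx y hy hxg hyg
    have hxy := hneq x hx y hy
    have : g = s(x, y) := ((Sym2.mem_and_mem_iff hxy).mp ⟨hxg, hyg⟩)
    rw [this] at hg
    exact hnadj x hx y hy hg
  have hM : IsInducedMatching G {s(a, b), s(c, d)} := by
    refine ⟨?_, ?_, ?_⟩
    · intro e he
      rcases Finset.mem_insert.mp he with rfl | he
      · exact hab
      · rw [Finset.mem_singleton.mp he]; exact hcd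
    · intro e he f hf hef x hx y hy
      rw [Finset.mem_insert, Finset.mem_singleton] at he hf
      rcases he with rfl | rfl <;> rcases hf with rfl | rfl
      · exact absurd rfl hef
      · exact hneq x hx y hy
      · exact (hneq y hy x hx).symm
      · exact absurd rfl hef
    · rintro e he f hf hef g hg ⟨⟨x, hx, hxg⟩, ⟨y, hy, hyg⟩⟩
      rw [Finset.mem_insert, Finset.mem_singleton] at he hf
      rcases he with rfl | rfl <;> rcases hf with rfl | rfl
      · exact absurd rfl hef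
      · exact hno g hg x hx y hy hxg hyg
      · exact hno g hg y hy x hx hyg hxg
      · exact absurd rfl hef
  have := h.2 ⟨_, hM, Finset.card_pair hne⟩
  omega

lemma edge_of_isIm {n : ℕ} {G : SimpleGraph (Fin n)} (h : IsIm G 1) : ∃ u v, G.Adj u v := by
  obtain ⟨M, hM, hc⟩ := h.1
  obtain ⟨e, rfl⟩ := Finset.card_eq_one.mp hc
  have h1 := hM.1 e (Finset.mem_singleton_self e)
  induction e using Sym2.ind with
  | _ x y => exact ⟨x, y, h1⟩

lemma isReg_unique {n : ℕ} {k : Type u} [Field k] {J : Ideal (MvPolynomial (Fin n) k)} {r s : ℕ}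
    (h : IsReg J r) (h' : IsReg J s) : r = s := IsGreatest.unique h h'

/-- The regularity of the powers, for a gap-free graph. -/
lemma reg_pow {n : ℕ} (k : Type u) [Field k] {G : SimpleGraph (Fin n)} (h : IsIm G 1) {r : ℕ}
    (hr : IsReg (edgeIdeal k G) r) (q : ℕ) (hq : 1 ≤ q) :
    IsReg (edgeIdeal k G ^ q) (max (r + q - 1) (2 * q)) := by
  obtain ⟨r', σ, h1, h2, -, h4⟩ := Pool.Agent.Y333.RP.formula' k G (edge_of_isIm h)
  have hσ := (Pool.Agent.Y333.RP.sigma_eq_one_iff k G σ h2).mpr (gapFree_of_isIm h)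
  have hrr : r = r' := isReg_unique hr h1
  subst hrr
  subst hσ
  have h5 := h4 q hq
  rwa [show 2 * q - 1 + 1 = 2 * q by omega] at h5

/-- **Q1 holds.**  Let `k` be a field and `G` a gap-free graph.
* If `G'` is an `(im, reg)`-invariant extension of `G` and `reg I(G)^q = 2q` for all `q ≥ c`, then
  `reg I(G')^q = 2q` for all `q ≥ c`.
* The same holds for every gap-free graph `G'` whatsoever, on any number of vertices, with
  `reg I(G') = reg I(G)`. -/
theorem result :
    (∀ (k : Type u) [Field k] (n : ℕ) (G : SimpleGraph (Fin n)) (G' : SimpleGraph (Fin (n + 1))),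
      NoIsolated G → NoIsolated G' → IsIm G 1 → IsInvariantExtension k G G' →
      ∀ c : ℤ, (∀ q : ℕ, 1 ≤ q → c ≤ q → IsReg (edgeIdeal k G ^ q) (2 * q)) →
        ∀ q : ℕ, 1 ≤ q → c ≤ q → IsReg (edgeIdeal k G' ^ q) (2 * q)) ∧
    (∀ (k : Type u) [Field k] (n n' r : ℕ) (G : SimpleGraph (Fin n)) (G' : SimpleGraph (Fin n')),
      IsIm G 1 → IsIm G' 1 → IsReg (edgeIdeal k G) r → IsReg (edgeIdeal k G') r →
      ∀ c : ℤ, (∀ q : ℕ, 1 ≤ q → c ≤ q → IsReg (edgeIdeal k G ^ q) (2 * q)) →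
        ∀ q : ℕ, 1 ≤ q → c ≤ q → IsReg (edgeIdeal k G' ^ q) (2 * q)) := by
  have main : ∀ (k : Type u) [Field k] (n n' r : ℕ) (G : SimpleGraph (Fin n))
      (G' : SimpleGraph (Fin n')),
      IsIm G 1 → IsIm G' 1 → IsReg (edgeIdeal k G) r → IsReg (edgeIdeal k G') r →
      ∀ c : ℤ, (∀ q : ℕ, 1 ≤ q → c ≤ q → IsReg (edgeIdeal k G ^ q) (2 * q)) →
        ∀ q : ℕ, 1 ≤ q → c ≤ q → IsReg (edgeIdeal k G' ^ q) (2 * q) := by
    intro k _ n n' r G G' hG hG' hr hr' c hc q hq hcq
    have h1 := reg_pow k hG hr q hq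
    have h2 := isReg_unique h1 (hc q hq hcq)
    have h3 := reg_pow k hG' hr' q hq
    rwa [h2] at h3
  refine ⟨?_, main⟩
  intro k _ n G G' _ _ hG hext c hc
  obtain ⟨r, -, hr, -⟩ := Pool.Agent.Y333.RP.formula' k G (edge_of_isIm hG)
  exact main k n (n + 1) r G G' hG ((hext.2.1 1).mp hG) hr ((hext.2.2 r).mp hr) c hc

end Pool.Agent.Results.MP_3df448_al.InvariantExtension
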